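import Mathlib

set_option autoImplicit false

namespace Pool.Agent.MP_c9c98b_al

open QuaternionGroup
open scoped commutatorElement

/-- The Schur multiplier of a generalised quaternion group vanishes, in elementary form: in a
central extension `p : E → QuaternionGroup N` the commutator subgroup meets the kernel
trivially. -/
theorem comm_inf_ker {E : Type*} [Group E] {N : ℕ} (p : E →* QuaternionGroup N)
    (hp : Function.Surjective p) (hk : p.ker ≤ Subgroup.center E) (g : E)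
    (hg : g ∈ commutator E) (h1 : p g = 1) : g = 1 := by
  obtain ⟨x, hx⟩ := hp (a 1)
  obtain ⟨y, hy⟩ := hp (xa 0)
  have hcen : ∀ u : E, p u = 1 → ∀ v : E, v * u = u * v := fun u hu v =>
    Subgroup.mem_center_iff.1 (hk (MonoidHom.mem_ker.2 hu)) v
  -- powers of `a 1`
  have hapow : ∀ k : ℤ, (a 1 : QuaternionGroup N) ^ k = a (k : ZMod (2 * N)) := by
    intro k
    cases k with
    | ofNat k => simp
    | negSucc k =>
      rw [zpow_negSucc, a_one_pow]
      apply inv_eq_of_mul_eq_one_left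
      rw [a_mul_a, ← a_zero]
      congr 1
      push_cast [Int.negSucc_eq]
      ring
  -- the element `α`
  set α : E := x * (y * x * y⁻¹) with hα
  have hpα : p α = 1 := by
    rw [hα]
    simp only [map_mul, map_inv, hx, hy]
    rw [← mul_assoc, mul_inv_eq_one]
    simp
  have hαc := hcen α hpα
  have hyx : y * x * y⁻¹ = x⁻¹ * α := by rw [hα]; group
  set c : E := ⁅y, x⁆ with hc
  have hcx : c = x ^ (-2 : ℤ) * α := by
    rw [hc, commutatorElement_def, hyx, mul_assoc, ← hαc x⁻¹]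
    group
  have hαcomm : ∀ v : E, Commute v α := fun v => hαc v
  have hcpow : ∀ k : ℤ, c ^ k = x ^ (-2 * k) * α ^ k := by
    intro k
    rw [hcx, ((hαcomm _).mul_zpow k), ← zpow_mul]
  have hyxk : ∀ k : ℤ, y * x ^ k * y⁻¹ = x ^ (-k) * α ^ k := by
    intro k
    rw [← conj_zpow, hyx, ((hαcomm _).mul_zpow k), inv_zpow']
  -- `c ^ N = 1`
  have hcN : c ^ (N : ℤ) = 1 := by
    have hb : p (x ^ (-(N : ℤ)) * y ^ 2) = 1 := by
      rw [map_mul, map_zpow, map_pow, hx, hy, hapow, xa_sq]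
      rw [a_mul_a]
      simp
    set β : E := x ^ (-(N : ℤ)) * y ^ 2 with hβ
    have hβc := hcen β hb
    have hxN : x ^ (N : ℤ) = y ^ 2 * β⁻¹ := by rw [hβ]; group
    have h2 : y * x ^ (N : ℤ) * y⁻¹ = x ^ (N : ℤ) := by
      rw [hxN]
      have : β⁻¹ * y⁻¹ = y⁻¹ * β⁻¹ := by
        rw [← mul_inv_rev, ← mul_inv_rev, hβc]
      calc y * (y ^ 2 * β⁻¹) * y⁻¹ = y * y ^ 2 * (β⁻¹ * y⁻¹) := by group
        _ = y * y ^ 2 * (y⁻¹ * β⁻¹) := by rw [this]
        _ = y ^ 2 * β⁻¹ := by group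
    rw [hyxk] at h2
    rw [hcpow]
    have h3 : α ^ (N : ℤ) = x ^ (N : ℤ) * x ^ (N : ℤ) := by
      rw [← h2]
      nth_rewrite 1 [h2]
      group
    rw [h3]
    group
  -- normal form
  have hnf : ∀ g : E, ∃ (k : ℤ) (u : E), p u = 1 ∧ (g = x ^ k * u ∨ g = y * x ^ k * u) := by
    intro g
    rcases hpg : p g with i | i
    · obtain ⟨k, hk'⟩ := ZMod.intCast_surjective i
      refine ⟨k, (x ^ k)⁻¹ * g, ?_, Or.inl (by group)⟩
      rw [map_mul, map_inv, map_zpow, hx, hapow, hpg, hk']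
      simp
    · obtain ⟨k, hk'⟩ := ZMod.intCast_surjective i
      refine ⟨k, (y * x ^ k)⁻¹ * g, ?_, Or.inr (by group)⟩
      rw [map_mul, map_inv, map_mul, map_zpow, hx, hy, hapow, hpg, hk', xa_mul_a]
      simp
  have hcen' : ∀ u : E, p u = 1 → u ∈ Subgroup.center E := fun u hu => hk (MonoidHom.mem_ker.2 hu)
  have hstrip : ∀ g h u v : E, p u = 1 → p v = 1 → ⁅g * u, h * v⁆ = ⁅g, h⁆ := by
    intro g h u v hu hv
    have e1 := hcen u hu
    have e2 := hcen v hv
    have e1' : ∀ w : E, Commute u w := fun w => (e1 w).symm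
    have e2' : ∀ w : E, Commute v w := fun w => (e2 w).symm
    rw [commutatorElement_def, commutatorElement_def]
    calc g * u * (h * v) * (g * u)⁻¹ * (h * v)⁻¹
        = g * (u * (h * v)) * (u⁻¹ * g⁻¹) * (v⁻¹ * h⁻¹) := by group
      _ = g * ((h * v) * u) * (u⁻¹ * g⁻¹) * (v⁻¹ * h⁻¹) := by rw [(e1' (h * v)).eq]
      _ = g * h * (v * (g⁻¹ * v⁻¹)) * h⁻¹ := by group
      _ = g * h * ((g⁻¹ * v⁻¹) * v) * h⁻¹ := by rw [(e2' (g⁻¹ * v⁻¹)).eq]
      _ = g * h * g⁻¹ * h⁻¹ := by group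
  have hcom1 : ∀ k l : ℤ, ⁅y * x ^ k, x ^ l⁆ = c ^ l := by
    intro k l
    rw [commutatorElement_def, hcpow]
    calc y * x ^ k * x ^ l * (y * x ^ k)⁻¹ * (x ^ l)⁻¹
        = (y * x ^ l * y⁻¹) * (x ^ l)⁻¹ := by group
      _ = x ^ (-l) * α ^ l * (x ^ l)⁻¹ := by rw [hyxk]
      _ = x ^ (-l) * (α ^ l * (x ^ l)⁻¹) := by group
      _ = x ^ (-l) * ((x ^ l)⁻¹ * α ^ l) := by
          rw [(((hαcomm ((x ^ l)⁻¹)).zpow_right l).symm).eq]
      _ = x ^ (-2 * l) * α ^ l := by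
          rw [← mul_assoc, ← zpow_neg, ← zpow_add]
          congr 2
          ring
  have hyc : ∀ k : ℤ, y * c ^ k * y⁻¹ = c ^ (-k) := by
    intro k
    rw [hcpow, hcpow]
    calc y * (x ^ (-2 * k) * α ^ k) * y⁻¹
        = y * x ^ (-2 * k) * (α ^ k * y⁻¹) := by group
      _ = y * x ^ (-2 * k) * (y⁻¹ * α ^ k) := by
          rw [(((hαcomm (y⁻¹)).zpow_right k).symm).eq]
      _ = (y * x ^ (-2 * k) * y⁻¹) * α ^ k := by group
      _ = x ^ (-(-2 * k)) * α ^ (-2 * k) * α ^ k := by rw [hyxk]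
      _ = x ^ (-2 * -k) * α ^ (-k) := by
          rw [mul_assoc, ← zpow_add]
          congr 2 <;> ring
  have hcom2 : ∀ k l : ℤ, ⁅y * x ^ k, y * x ^ l⁆ = c ^ (k - l) := by
    intro k l
    have : ⁅y * x ^ k, y * x ^ l⁆ = y * c ^ (l - k) * y⁻¹ := by
      rw [commutatorElement_def, hcpow]
      calc y * x ^ k * (y * x ^ l) * (y * x ^ k)⁻¹ * (y * x ^ l)⁻¹
          = y * x ^ k * (y * x ^ (l - k) * y⁻¹) * x ^ (-l) * y⁻¹ := by group
        _ = y * x ^ k * (x ^ (-(l - k)) * α ^ (l - k)) * x ^ (-l) * y⁻¹ := by rw [hyxk]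
        _ = y * x ^ k * x ^ (-(l - k)) * (α ^ (l - k) * x ^ (-l)) * y⁻¹ := by group
        _ = y * x ^ k * x ^ (-(l - k)) * (x ^ (-l) * α ^ (l - k)) * y⁻¹ := by
            rw [(((hαcomm (x ^ (-l))).zpow_right (l - k)).symm).eq]
        _ = y * (x ^ k * x ^ (-(l - k)) * x ^ (-l)) * α ^ (l - k) * y⁻¹ := by group
        _ = y * (x ^ (-2 * (l - k)) * α ^ (l - k)) * y⁻¹ := by
            rw [← zpow_add, ← zpow_add]
            have : k + -(l - k) + -l = -2 * (l - k) := by ring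
            rw [this]
            group
    rw [this, hyc]
    congr 1
    ring
  have hcomm : ∀ g h : E, ⁅g, h⁆ ∈ Subgroup.zpowers c := by
    intro g h
    obtain ⟨k, u, hu, hgu⟩ := hnf g
    obtain ⟨l, v, hv, hhv⟩ := hnf h
    rcases hgu with rfl | rfl <;> rcases hhv with rfl | rfl
    · rw [hstrip _ _ _ _ hu hv, commutatorElement_eq_one_iff_commute.2
        ((Commute.refl x).zpow_zpow k l)]
      exact one_mem _
    · rw [hstrip _ _ _ _ hu hv, ← commutatorElement_inv, hcom1]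
      exact inv_mem (Subgroup.zpow_mem_zpowers c _)
    · rw [hstrip _ _ _ _ hu hv, hcom1]
      exact Subgroup.zpow_mem_zpowers c _
    · rw [hstrip _ _ _ _ hu hv, hcom2]
      exact Subgroup.zpow_mem_zpowers c _
  have hle : commutator E ≤ Subgroup.zpowers c := by
    rw [commutator_def]
    exact Subgroup.commutator_le.2 fun g _ h _ => hcomm g h
  obtain ⟨k, hk2⟩ := Subgroup.mem_zpowers_iff.1 (hle hg)
  rw [← hk2] at h1
  rw [← hk2]
  have hpx : p (x ^ (-2 * k)) = 1 := by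
    have := h1
    rw [hcpow, map_mul, map_zpow p α, hpα, one_zpow, mul_one] at this
    exact this
  rw [map_zpow, hx, hapow, one_def] at hpx
  have h3 : ((-2 * k : ℤ) : ZMod (2 * N)) = 0 := by
    injection hpx
  rw [ZMod.intCast_zmod_eq_zero_iff_dvd] at h3
  obtain ⟨m, hm⟩ := h3
  have h4 : k = (N : ℤ) * (-m) := by
    push_cast at hm
    linarith
  rw [h4, zpow_mul, hcN, one_zpow]

end Pool.Agent.MP_c9c98b_al
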