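import Mathlib
import Pool.Agent.Lib.MP_c9c98b_al.PartA
import Pool.Agent.Lib.MP_c9c98b_al.PartB

set_option autoImplicit false

namespace Pool.Agent.MP_c9c98b_al

open scoped commutatorElement
open QuaternionGroup

/-- The family of generalised quaternion groups of order `2 ^ (n + 2)`. -/
abbrev Qf (n : ℕ) : Type := QuaternionGroup (2 ^ n)

theorem Qf_nilpotent (n : ℕ) : Group.IsNilpotent (Qf n) := by
  have h2 : NeZero (2 ^ n : ℕ) := ⟨by positivity⟩
  have hfact : Fact (Nat.Prime 2) := ⟨Nat.prime_two⟩
  apply IsPGroup.isNilpotent (p := 2)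
  apply IsPGroup.of_card (n := n + 2)
  rw [Nat.card_eq_fintype_card, QuaternionGroup.card]
  ring

/-- Every central extension of the restricted direct product of the generalised quaternion
2-groups is residually nilpotent. -/
theorem resNilp {E : Type} [Group E] (f : E →* FS Qf) (hf : Function.Surjective f)
    (hk : f.ker ≤ Subgroup.center E) (g : E) (hg : g ≠ 1) :
    ∃ (H : Type) (_ : Group H) (φ : E →* H), Group.IsNilpotent H ∧ φ g ≠ 1 := by
  by_cases h1 : f g = 1
  · -- quotient by the third term of the lower central series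
    let L : Subgroup E := (⊤ : Subgroup E).lowerCentralSeries 2
    refine ⟨E ⧸ L, inferInstance, QuotientGroup.mk' L, ?_, ?_⟩
    · rw [Subgroup.nilpotent_iff_lowerCentralSeries]
      refine ⟨2, ?_⟩
      have h := Subgroup.map_lowerCentralSeries (⊤ : Subgroup E) (QuotientGroup.mk' L) 2
      have htop : (⊤ : Subgroup E).map (QuotientGroup.mk' L) = ⊤ :=
        Subgroup.map_top_of_surjective _ (QuotientGroup.mk'_surjective L)
      rw [htop] at h
      rw [← h]
      show L.map (QuotientGroup.mk' L) = ⊥
      exact QuotientGroup.map_mk'_self L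
    · intro h
      have h3 : g ∈ L := (QuotientGroup.eq_one_iff g).1 h
      exact hg (lcs_inf_ker (fun n E' _ p hp hpk u hu hpu => comm_inf_ker p hp hpk u hu hpu)
        f hf hk g h3 h1)
  · -- a coordinate
    have h2 : ∃ n, proj n (f g) ≠ 1 := by
      by_contra hcon
      push Not at hcon
      exact h1 (FS_ext fun n => by rw [hcon n, map_one])
    obtain ⟨n, hn⟩ := h2
    exact ⟨Qf n, inferInstance, (proj n).comp f, Qf_nilpotent n, hn⟩

end Pool.Agent.MP_c9c98b_al
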