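import Mathlib
import Pool.Agent.Lib.MP_c9c98b_al.PartB

set_option autoImplicit false

namespace Pool.Agent.MP_c9c98b_al

open scoped commutatorElement

/-- The amalgamation construction: from a sequence of groups `P n` with deep central involutions
`z n` one builds a central extension of a central extension which is not residually nilpotent. -/
theorem amalgam {P Q : ℕ → Type} [∀ n, Group (P n)] [∀ n, Group (Q n)]
    (q : ∀ n, P n →* Q n) (hq : ∀ n, Function.Surjective (q n)) (z : ∀ n, P n)
    (hzc : ∀ n (g : P n), g * z n = z n * g) (hz2 : ∀ n, z n * z n = 1) (hz1 : ∀ n, z n ≠ 1)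
    (hqz : ∀ n, q n (z n) = 1)
    (hker : ∀ n (l g : P n), q n l = 1 → ⁅l, g⁆ = 1 ∨ ⁅l, g⁆ = z n)
    (hdeep : ∀ n, z n ∈ (⊤ : Subgroup (P n)).lowerCentralSeries n) :
    ∃ (E₁ : Type) (_ : Group E₁) (f₁ : E₁ →* FS Q) (E₂ : Type) (_ : Group E₂) (f₂ : E₂ →* E₁),
        Function.Surjective f₁ ∧ f₁.ker ≤ Subgroup.center E₁ ∧
        Function.Surjective f₂ ∧ f₂.ker ≤ Subgroup.center E₂ ∧
        ∃ g : E₂, g ≠ 1 ∧
          ∀ (H : Type) (_ : Group H) (φ : E₂ →* H), Group.IsNilpotent H → φ g = 1 := by
  classical
  -- the subgroup generated by the `z n`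
  let Zs : Subgroup (FS P) :=
    { carrier := {u | ∀ n, proj n u = 1 ∨ proj n u = z n}
      mul_mem' := by
        intro u v hu hv n
        rw [map_mul]
        rcases hu n with h | h <;> rcases hv n with h' | h' <;> simp [h, h', hz2]
      one_mem' := by
        intro n
        simp
      inv_mem' := by
        intro u hu n
        rw [map_inv]
        rcases hu n with h | h
        · simp [h]
        · right
          rw [h, inv_eq_iff_mul_eq_one]
          exact hz2 n }
  have hZc : Zs ≤ Subgroup.center (FS P) := by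
    intro u hu
    rw [Subgroup.mem_center_iff]
    intro v
    apply FS_ext
    intro n
    rw [map_mul, map_mul]
    rcases hu n with h | h
    · simp [h]
    · rw [h]
      exact hzc n _
  let ε : ∀ n, P n → ZMod 2 := fun n x => if x = 1 then 0 else 1
  have hfin : ∀ u : FS P, (Function.support (fun n => ε n (proj n u))).Finite := by
    intro u
    obtain ⟨F, hF⟩ := FS_finite u
    apply (Finset.finite_toSet F).subset
    intro n hn
    by_contra hne
    apply hn
    show ε n (proj n u) = 0
    rw [hF n (by simpa using hne)]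
    simp [ε]
  let par : Zs →* Multiplicative (ZMod 2) :=
    { toFun := fun u => Multiplicative.ofAdd (∑ᶠ n, ε n (proj n (u : FS P)))
      map_one' := by simp [ε]
      map_mul' := by
        intro u v
        rw [← ofAdd_add, ← finsum_add_distrib (hfin _) (hfin _)]
        congr 1
        apply finsum_congr
        intro n
        have h2 : (1 : ZMod 2) + 1 = 0 := by decide
        simp only [Subgroup.coe_mul, map_mul]
        rcases u.2 n with h | h <;> rcases v.2 n with h' | h' <;>
          simp [h, h', hz2, hz1, ε, h2] }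
  let W : Subgroup (FS P) := par.ker.map Zs.subtype
  have hWZ : W ≤ Zs := by
    rintro _ ⟨u, _, rfl⟩
    exact u.2
  have hWn : W.Normal := by
    refine ⟨fun w hw g => ?_⟩
    rw [Subgroup.mem_center_iff.1 (hZc (hWZ hw)) g, mul_inv_cancel_right]
    exact hw
  have hZn : Zs.Normal := by
    refine ⟨fun w hw g => ?_⟩
    rw [Subgroup.mem_center_iff.1 (hZc hw) g, mul_inv_cancel_right]
    exact hw
  -- the coordinatewise map
  let Φ : FS P →* FS Q :=
    { toFun := fun u => ⟨fun n => q n (proj n u), by
        obtain ⟨F, hF⟩ := FS_finite u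
        exact ⟨F, fun n hn => by
          show q n (proj n u) = 1
          rw [hF n hn, map_one]⟩⟩
      map_one' := FS_ext fun n => by simp [proj]
      map_mul' := fun u v => FS_ext fun n => by simp [proj] }
  have hΦ : ∀ n u, proj n (Φ u) = q n (proj n u) := fun n u => rfl
  have hΦs : Function.Surjective Φ := by
    intro v
    obtain ⟨F, hF⟩ := FS_finite v
    choose s hs using hq
    refine ⟨⟨fun n => if n ∈ F then s n (proj n v) else 1, F, fun n hn => by simp [hn]⟩, ?_⟩
    apply FS_ext
    intro n
    rw [hΦ]
    show q n (if n ∈ F then s n (proj n v) else 1) = proj n v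
    by_cases hn : n ∈ F
    · rw [if_pos hn, hs]
    · rw [if_neg hn, map_one, hF n hn]
  have hZker : Zs ≤ Φ.ker := by
    intro u hu
    rw [MonoidHom.mem_ker]
    apply FS_ext
    intro n
    rw [hΦ, map_one]
    rcases hu n with h | h
    · rw [h, map_one]
    · rw [h, hqz]
  let f₁ : (FS P ⧸ Zs) →* FS Q := QuotientGroup.lift Zs Φ (fun u hu => hZker hu)
  let f₂ : (FS P ⧸ W) →* (FS P ⧸ Zs) := QuotientGroup.map W Zs (MonoidHom.id _) (by
    intro u hu
    exact hWZ hu)
  have hinjZ : ∀ n, inj n (z n) ∈ Zs := by
    intro n m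
    by_cases h : m = n
    · subst h
      right
      exact proj_inj _ _
    · left
      exact proj_inj_ne h _
  have hparinj : ∀ n, par ⟨inj n (z n), hinjZ n⟩ = Multiplicative.ofAdd 1 := by
    intro n
    show Multiplicative.ofAdd (∑ᶠ m, ε m (proj m (inj n (z n)))) = _
    rw [finsum_eq_single _ n]
    · rw [proj_inj]
      simp [ε, hz1]
    · intro m hm
      rw [proj_inj_ne hm]
      simp [ε]
  refine ⟨FS P ⧸ Zs, inferInstance, f₁, FS P ⧸ W, inferInstance, f₂, ?_, ?_, ?_, ?_,
    QuotientGroup.mk (inj 0 (z 0)), ?_, ?_⟩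
  · intro v
    obtain ⟨u, hu⟩ := hΦs v
    exact ⟨QuotientGroup.mk u, hu⟩
  · intro x hx
    induction x using QuotientGroup.induction_on with
    | H u =>
      rw [Subgroup.mem_center_iff]
      intro y
      induction y using QuotientGroup.induction_on with
      | H v =>
        have hu : Φ u = 1 := hx
        have h1 : (u * v)⁻¹ * (v * u) ∈ Zs := by
          intro n
          have h2 : q n (proj n u) = 1 := by rw [← hΦ, hu, map_one]
          have h3 := hker n ((proj n u)⁻¹) ((proj n v)⁻¹) (by rw [map_inv, h2, inv_one])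
          have h4 : ⁅(proj n u)⁻¹, (proj n v)⁻¹⁆ = (proj n u)⁻¹ * (proj n v)⁻¹ *
            proj n u * proj n v := by
            rw [commutatorElement_def]
            simp
          have h5 : ⁅(proj n v)⁻¹, (proj n u)⁻¹⁆ = (proj n v)⁻¹ * (proj n u)⁻¹ *
            proj n v * proj n u := by
            rw [commutatorElement_def]
            simp
          have h6 : proj n ((u * v)⁻¹ * (v * u)) = ⁅(proj n v)⁻¹, (proj n u)⁻¹⁆ := by
            rw [h5]
            simp [mul_assoc]
          rw [h6, ← commutatorElement_inv]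
          rcases h3 with h | h
          · left
            rw [h, inv_one]
          · right
            rw [h, inv_eq_iff_mul_eq_one]
            exact hz2 n
        have h7 : ((u * v : FS P) : FS P ⧸ Zs) = ((v * u : FS P) : FS P ⧸ Zs) :=
          QuotientGroup.eq.2 h1
        simpa using h7.symm
  · intro x
    induction x using QuotientGroup.induction_on with
    | H u => exact ⟨QuotientGroup.mk u, rfl⟩
  · intro x hx
    induction x using QuotientGroup.induction_on with
    | H u =>
      have hu : u ∈ Zs := by
        have : ((u : FS P) : FS P ⧸ Zs) = 1 := hx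
        exact (QuotientGroup.eq_one_iff u).1 this
      rw [Subgroup.mem_center_iff]
      intro y
      induction y using QuotientGroup.induction_on with
      | H v =>
        have := Subgroup.mem_center_iff.1 (hZc hu) v
        have h8 : ((v * u : FS P) : FS P ⧸ W) = ((u * v : FS P) : FS P ⧸ W) := by rw [this]
        simpa using h8
  · intro h
    have h1 : inj 0 (z 0) ∈ W := (QuotientGroup.eq_one_iff _).1 h
    obtain ⟨u, hu, hu'⟩ := h1
    have h2 : u = ⟨inj 0 (z 0), hinjZ 0⟩ := Subtype.ext hu'
    rw [h2] at hu
    have h3 : par ⟨inj 0 (z 0), hinjZ 0⟩ = 1 := hu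
    rw [hparinj 0] at h3
    exact absurd h3 (by decide)
  · intro H _ φ hH
    rw [Subgroup.nilpotent_iff_lowerCentralSeries] at hH
    obtain ⟨c, hc⟩ := hH
    have h1 : (QuotientGroup.mk (inj 0 (z 0)) : FS P ⧸ W) = QuotientGroup.mk (inj c (z c)) := by
      rw [QuotientGroup.eq]
      refine ⟨⟨inj 0 (z 0), hinjZ 0⟩⁻¹ * ⟨inj c (z c), hinjZ c⟩, ?_, rfl⟩
      show par _ = 1
      rw [map_mul, map_inv, hparinj, hparinj]
      simp
    rw [h1]
    let ψ : P c →* H := (φ.comp (QuotientGroup.mk' W)).comp (inj c)
    have h2 : ψ (z c) ∈ (⊤ : Subgroup H).lowerCentralSeries c := by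
      have h3 := Subgroup.mem_map_of_mem ψ (hdeep c)
      rw [Subgroup.map_lowerCentralSeries] at h3
      exact Subgroup.lowerCentralSeries_mono c le_top h3
    rw [hc, Subgroup.mem_bot] at h2
    exact h2

end Pool.Agent.MP_c9c98b_al
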