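import Mathlib

set_option autoImplicit false

namespace Pool.Agent.MP_c9c98b_al

open scoped commutatorElement

/-- Reduction of dihedral groups. -/
def cD (N : ℕ) : DihedralGroup (4 * N) →* DihedralGroup N where
  toFun
    | DihedralGroup.r i => DihedralGroup.r (ZMod.castHom (Dvd.intro_left 4 rfl) (ZMod N) i)
    | DihedralGroup.sr i => DihedralGroup.sr (ZMod.castHom (Dvd.intro_left 4 rfl) (ZMod N) i)
  map_one' := by
    rw [DihedralGroup.one_def, DihedralGroup.one_def]
    simp
  map_mul' := by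
    rintro (i | i) (j | j) <;> simp

/-- The projection from a generalised quaternion group to a dihedral group. -/
def cQ (N : ℕ) : QuaternionGroup N →* DihedralGroup N where
  toFun
    | QuaternionGroup.a i => DihedralGroup.r (ZMod.castHom (Dvd.intro_left 2 rfl) (ZMod N) i)
    | QuaternionGroup.xa i => DihedralGroup.sr (ZMod.castHom (Dvd.intro_left 2 rfl) (ZMod N) i)
  map_one' := by
    rw [DihedralGroup.one_def, QuaternionGroup.one_def]
    simp
  map_mul' := by
    rintro (i | i) (j | j) <;> simp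

/-- The fibre product, isomorphic to the semidirect product of a cyclic group of order `4 * N`
by a cyclic group of order `4` acting by inversion. -/
def PP (N : ℕ) : Subgroup (DihedralGroup (4 * N) × QuaternionGroup N) :=
  ((cD N).comp (MonoidHom.fst _ _)).eqLocus ((cQ N).comp (MonoidHom.snd _ _))

theorem mem_PP {N : ℕ} (d : DihedralGroup (4 * N)) (s : QuaternionGroup N) :
    (d, s) ∈ PP N ↔ cD N d = cQ N s := Iff.rfl

/-- The projection to the quaternion group. -/
def qP (N : ℕ) : PP N →* QuaternionGroup N := (MonoidHom.snd _ _).comp (PP N).subtype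

theorem castHom_surj {a b : ℕ} (h : b ∣ a) : Function.Surjective (ZMod.castHom h (ZMod b)) :=
  ZMod.castHom_surjective h

theorem qP_surj (N : ℕ) : Function.Surjective (qP N) := by
  rintro (i | i)
  · obtain ⟨j, hj⟩ := castHom_surj (Dvd.intro_left 4 rfl : N ∣ 4 * N)
      (ZMod.castHom (Dvd.intro_left 2 rfl) (ZMod N) i)
    exact ⟨⟨(DihedralGroup.r j, QuaternionGroup.a i), congrArg DihedralGroup.r hj⟩, rfl⟩
  · obtain ⟨j, hj⟩ := castHom_surj (Dvd.intro_left 4 rfl : N ∣ 4 * N)
      (ZMod.castHom (Dvd.intro_left 2 rfl) (ZMod N) i)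
    exact ⟨⟨(DihedralGroup.sr j, QuaternionGroup.xa i), congrArg DihedralGroup.sr hj⟩, rfl⟩

theorem two_N_two_N (N : ℕ) : ((2 * N : ℕ) : ZMod (4 * N)) + ((2 * N : ℕ) : ZMod (4 * N)) = 0 := by
  rw [← Nat.cast_add]
  have : 2 * N + 2 * N = 4 * N := by ring
  rw [this]
  exact ZMod.natCast_self _

/-- The central involution. -/
def zP (N : ℕ) : PP N := ⟨(DihedralGroup.r ((2 * N : ℕ) : ZMod (4 * N)), 1), by
  rw [mem_PP, map_one, DihedralGroup.one_def]
  show DihedralGroup.r (ZMod.castHom _ (ZMod N) ((2 * N : ℕ) : ZMod (4 * N))) = _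
  simp⟩

theorem qP_zP (N : ℕ) : qP N (zP N) = 1 := rfl

theorem zP_central (N : ℕ) (g : PP N) : g * zP N = zP N * g := by
  obtain ⟨⟨d, s⟩, hg⟩ := g
  apply Subtype.ext
  apply Prod.ext
  · show d * DihedralGroup.r _ = DihedralGroup.r _ * d
    rcases d with i | i
    · simp [add_comm]
    · simp only [DihedralGroup.sr_mul_r, DihedralGroup.r_mul_sr, DihedralGroup.sr.injEq]
      rw [eq_sub_iff_add_eq, add_assoc, two_N_two_N, add_zero]
  · show s * 1 = 1 * s
    simp

theorem zP_sq (N : ℕ) : zP N * zP N = 1 := by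
  apply Subtype.ext
  apply Prod.ext
  · show DihedralGroup.r _ * DihedralGroup.r _ = 1
    rw [DihedralGroup.r_mul_r, two_N_two_N, DihedralGroup.one_def]
  · show (1 : QuaternionGroup N) * 1 = 1
    simp

theorem zP_ne_one (N : ℕ) (hN : 0 < N) : zP N ≠ 1 := by
  intro h
  have h1 : DihedralGroup.r ((2 * N : ℕ) : ZMod (4 * N)) = 1 :=
    congrArg (fun x : PP N => (x : DihedralGroup (4 * N) × QuaternionGroup N).1) h
  rw [DihedralGroup.one_def] at h1
  have h2 : ((2 * N : ℕ) : ZMod (4 * N)) = 0 := by injection h1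
  rw [ZMod.natCast_eq_zero_iff] at h2
  have := Nat.le_of_dvd (by omega) h2
  omega

theorem ker_comm (N : ℕ) (l g : PP N) (hl : qP N l = 1) : ⁅l, g⁆ = 1 ∨ ⁅l, g⁆ = zP N := by
  obtain ⟨⟨d, s⟩, hds⟩ := l
  obtain ⟨⟨d', s'⟩, hds'⟩ := g
  have hs : s = 1 := hl
  subst hs
  rw [mem_PP, map_one] at hds
  rcases d with i | i
  · have hi : (ZMod.castHom (Dvd.intro_left 4 rfl) (ZMod N) i) = 0 := by
      have h1 : DihedralGroup.r (ZMod.castHom (Dvd.intro_left 4 rfl) (ZMod N) i) =
        (1 : DihedralGroup N) := hds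
      rw [DihedralGroup.one_def] at h1
      injection h1
    obtain ⟨k, rfl⟩ := ZMod.intCast_surjective i
    rw [map_intCast, ZMod.intCast_zmod_eq_zero_iff_dvd] at hi
    obtain ⟨m, rfl⟩ := hi
    rcases d' with j | j
    · left
      apply Subtype.ext
      apply Prod.ext
      · show DihedralGroup.r _ * DihedralGroup.r _ * (DihedralGroup.r _)⁻¹ *
          (DihedralGroup.r _)⁻¹ = 1
        rw [DihedralGroup.inv_r, DihedralGroup.inv_r, DihedralGroup.r_mul_r,
          DihedralGroup.r_mul_r, DihedralGroup.r_mul_r, DihedralGroup.one_def]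
        congr 1
        ring
      · show (1 : QuaternionGroup N) * s' * 1⁻¹ * s'⁻¹ = 1
        simp
    · have hfst : DihedralGroup.r (((N : ℤ) * m : ℤ) : ZMod (4 * N)) * DihedralGroup.sr j *
          (DihedralGroup.r (((N : ℤ) * m : ℤ) : ZMod (4 * N)))⁻¹ * (DihedralGroup.sr j)⁻¹ =
          DihedralGroup.r ((((2 * N : ℕ) : ℤ) * m : ℤ) : ZMod (4 * N)) := by
        rw [DihedralGroup.inv_r, DihedralGroup.inv_sr, DihedralGroup.r_mul_sr,
          DihedralGroup.sr_mul_r, DihedralGroup.sr_mul_sr]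
        congr 1
        push_cast
        ring
      have h4 : ((((4 * N : ℕ) : ℤ) : ℤ) : ZMod (4 * N)) = 0 := by
        rw [Int.cast_natCast]
        exact ZMod.natCast_self _
      rcases Int.even_or_odd' m with ⟨t, rfl | rfl⟩
      · left
        apply Subtype.ext
        apply Prod.ext
        · refine hfst.trans ?_
          show _ = (1 : DihedralGroup (4 * N))
          rw [DihedralGroup.one_def]
          congr 1
          have : (((2 * N : ℕ) : ℤ) * (2 * t) : ℤ) = ((4 * N : ℕ) : ℤ) * t := by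
            push_cast
            ring
          rw [this, Int.cast_mul, h4, zero_mul]
        · show (1 : QuaternionGroup N) * s' * 1⁻¹ * s'⁻¹ = 1
          simp
      · right
        apply Subtype.ext
        apply Prod.ext
        · refine hfst.trans ?_
          show _ = DihedralGroup.r ((2 * N : ℕ) : ZMod (4 * N))
          congr 1
          have : (((2 * N : ℕ) : ℤ) * (2 * t + 1) : ℤ) = ((4 * N : ℕ) : ℤ) * t + (2 * N : ℕ) := by
            push_cast
            ring
          rw [this, Int.cast_add, Int.cast_mul, h4, zero_mul, zero_add, Int.cast_natCast]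
        · show (1 : QuaternionGroup N) * s' * 1⁻¹ * s'⁻¹ = 1
          simp
  · exfalso
    have h1 : DihedralGroup.sr (ZMod.castHom (Dvd.intro_left 4 rfl) (ZMod N) i) =
        (1 : DihedralGroup N) := hds
    rw [DihedralGroup.one_def] at h1
    cases h1

/-- The generator of the cyclic normal subgroup. -/
def xP (N : ℕ) : PP N := ⟨(DihedralGroup.r 1, QuaternionGroup.a 1), by
  rw [mem_PP]
  show DihedralGroup.r (ZMod.castHom _ (ZMod N) 1) = DihedralGroup.r (ZMod.castHom _ (ZMod N) 1)
  simp⟩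

/-- The generator acting by inversion. -/
def yP (N : ℕ) : PP N := ⟨(DihedralGroup.sr 0, QuaternionGroup.xa 0), by
  rw [mem_PP]
  show DihedralGroup.sr (ZMod.castHom _ (ZMod N) 0) = DihedralGroup.sr (ZMod.castHom _ (ZMod N) 0)
  simp⟩

theorem yxy (N : ℕ) : yP N * xP N * (yP N)⁻¹ = (xP N)⁻¹ := by
  apply Subtype.ext
  apply Prod.ext
  · show DihedralGroup.sr _ * DihedralGroup.r _ * (DihedralGroup.sr _)⁻¹ = (DihedralGroup.r _)⁻¹
    simp
  · show QuaternionGroup.xa _ * QuaternionGroup.a _ * (QuaternionGroup.xa _)⁻¹ =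
      (QuaternionGroup.a _)⁻¹
    rw [mul_inv_eq_iff_eq_mul, eq_inv_mul_iff_mul_eq]
    simp

theorem pow_deep (N j : ℕ) : (xP N) ^ (2 ^ j) ∈ (⊤ : Subgroup (PP N)).lowerCentralSeries j := by
  induction j with
  | zero => exact Subgroup.mem_top _
  | succ j ih =>
    have h : (xP N) ^ (2 ^ (j + 1)) = ⁅(xP N) ^ (2 ^ j), yP N⁆ := by
      rw [commutatorElement_def]
      have h1 : yP N * ((xP N) ^ (2 ^ j))⁻¹ * (yP N)⁻¹ = (xP N) ^ (2 ^ j) := by
        rw [← conj_inv, ← conj_pow, yxy]
        simp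
      calc (xP N) ^ (2 ^ (j + 1)) = (xP N) ^ (2 ^ j) * (xP N) ^ (2 ^ j) := by
            rw [← pow_add]
            congr 1
            ring
        _ = (xP N) ^ (2 ^ j) * (yP N * ((xP N) ^ (2 ^ j))⁻¹ * (yP N)⁻¹) := by rw [h1]
        _ = _ := by group
    rw [h]
    exact Subgroup.commutator_mem_commutator ih (Subgroup.mem_top _)

theorem xP_pow (N : ℕ) : (xP N) ^ (2 * N) = zP N := by
  apply Subtype.ext
  apply Prod.ext
  · show (DihedralGroup.r 1) ^ (2 * N) = DihedralGroup.r ((2 * N : ℕ) : ZMod (4 * N))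
    exact DihedralGroup.r_one_pow _
  · show (QuaternionGroup.a 1) ^ (2 * N) = 1
    exact QuaternionGroup.a_one_pow_n

theorem zP_deep (n : ℕ) : zP (2 ^ n) ∈ (⊤ : Subgroup (PP (2 ^ n))).lowerCentralSeries n := by
  have h := pow_deep (2 ^ n) (n + 1)
  have h1 : 2 ^ (n + 1) = 2 * 2 ^ n := by ring
  rw [h1, xP_pow] at h
  exact Subgroup.lowerCentralSeries_antitone _ (Nat.le_succ n) h

end Pool.Agent.MP_c9c98b_al
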