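import Mathlib
import Pool.Agent.Lib.MP_c9c98b_al.PartB

set_option autoImplicit false

/-!
`lcs_inf_ker` of `PartB` for central extensions in an arbitrary universe.
-/

namespace Pool.Agent.MP_c9c98b_al

open scoped commutatorElement

universe u

variable {H : ℕ → Type} [∀ n, Group (H n)]

/-- The key lemma: if every central extension of every factor has commutator subgroup meeting the
kernel trivially, then in a central extension of the restricted direct product the third term of
the lower central series meets the kernel trivially. -/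
theorem lcs_inf_ker_univ
    (hA : ∀ (n : ℕ) (E : Type u) (_ : Group E) (p : E →* H n), Function.Surjective p →
      p.ker ≤ Subgroup.center E → ∀ g ∈ commutator E, p g = 1 → g = 1)
    {E : Type u} [Group E] (f : E →* FS H) (hf : Function.Surjective f)
    (hk : f.ker ≤ Subgroup.center E) (g : E)
    (hg : g ∈ (⊤ : Subgroup E).lowerCentralSeries 2) (h1 : f g = 1) : g = 1 := by
  classical
  -- the subgroups `R n`, `En n`, `T n`
  let R : ℕ → Subgroup (FS H) := fun n => (inj n).range
  have hRn : ∀ n, (R n).Normal := by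
    intro n
    refine ⟨?_⟩
    rintro _ ⟨x, rfl⟩ g
    exact ⟨_, (conj_inj g n x).symm⟩
  let En : ℕ → Subgroup E := fun n => (R n).comap f
  have hEn : ∀ n, (En n).Normal := fun n => (hRn n).comap f
  let T : ℕ → Subgroup E := fun n => ⁅En n, En n⁆
  have hTn : ∀ n, (T n).Normal := by
    intro n
    have := hEn n
    exact Subgroup.commutator_normal _ _
  have hTE : ∀ n, T n ≤ En n := by
    intro n
    have := hEn n
    exact Subgroup.commutator_le_left _ _
  -- `T n` meets the kernel trivially
  have hTk : ∀ n, ∀ t ∈ T n, f t = 1 → t = 1 := by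
    intro n t ht hft
    let p : En n →* H n := ((proj n).comp f).comp (En n).subtype
    have hp : Function.Surjective p := by
      intro x
      obtain ⟨e, he⟩ := hf (inj n x)
      refine ⟨⟨e, ?_⟩, ?_⟩
      · show f e ∈ R n
        rw [he]
        exact ⟨x, rfl⟩
      · show proj n (f e) = x
        rw [he, proj_inj]
    have hpk : p.ker ≤ Subgroup.center (En n) := by
      intro e he
      have h2 : f (e : E) = 1 := by
        obtain ⟨x, hx⟩ := (e.2 : f (e : E) ∈ R n)
        have h3 : proj n (f (e : E)) = 1 := he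
        rw [← hx, proj_inj] at h3
        rw [← hx, h3, map_one]
      have h4 := Subgroup.mem_center_iff.1 (hk (MonoidHom.mem_ker.2 h2))
      rw [Subgroup.mem_center_iff]
      intro v
      exact Subtype.ext (h4 v)
    have ht' : t ∈ (commutator (En n)).map (En n).subtype := by
      rw [Subgroup.map_subtype_commutator]
      exact ht
    obtain ⟨t', ht', rfl⟩ := ht'
    have := hA n (En n) _ p hp hpk t' ht' (by
      show proj n (f (t' : E)) = 1
      have h5 : f (t' : E) = 1 := hft
      rw [h5, map_one])
    rw [this, map_one]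
  -- finite joins
  have hS : ∀ F : Finset ℕ, ∀ t ∈ (⨆ n ∈ F, T n), (∀ m, m ∉ F → proj m (f t) = 1) ∧
      (f t = 1 → t = 1) := by
    intro F
    induction F using Finset.induction_on with
    | empty =>
      intro t ht
      simp only [Finset.notMem_empty, not_false_eq_true, iSup_neg, iSup_bot,
        Subgroup.mem_bot] at ht
      subst ht
      simp
    | insert m F hm ih =>
      intro t ht
      rw [Finset.iSup_insert] at ht
      have := hTn m
      obtain ⟨u, hu, v, hv, rfl⟩ := Subgroup.mem_sup_of_normal_left.1 ht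
      obtain ⟨ih1, ih2⟩ := ih v hv
      obtain ⟨x, hx⟩ := (hTE m hu : f u ∈ R m)
      constructor
      · intro n hn
        simp only [Finset.mem_insert, not_or] at hn
        rw [map_mul, map_mul, ih1 n hn.2, ← hx, proj_inj_ne hn.1, mul_one]
      · intro huv
        have h6 : f u = 1 := by
          have h7 : proj m (f (u * v)) = 1 := by rw [huv, map_one]
          rw [map_mul, map_mul, ih1 m hm, mul_one, ← hx, proj_inj] at h7
          rw [← hx, h7, map_one]
        have h8 : u = 1 := hTk m u hu h6
        subst h8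
        rw [one_mul] at huv ⊢
        exact ih2 huv
  let TT : Subgroup E := ⨆ n, T n
  have hTT : TT.Normal := by
    have := hTn
    exact Subgroup.iSup_normal T
  have hTTk : ∀ t ∈ TT, f t = 1 → t = 1 := by
    intro t ht hft
    have ht2 : t ∈ ⨆ F : Finset ℕ, ⨆ n ∈ F, T n := by
      rw [← iSup_eq_iSup_finset]
      exact ht
    rw [Subgroup.mem_iSup_of_directed] at ht2
    · obtain ⟨F, hF⟩ := ht2
      exact (hS F t hF).2 hft
    · intro F F'
      refine ⟨F ∪ F', ?_, ?_⟩
      · exact biSup_mono (by intro i hi; simp [hi])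
      · exact biSup_mono (by intro i hi; simp [hi])
  -- commutators
  have hcomm : ∀ k : FS H, (∀ n, proj n k ∈ commutator (H n)) → k ∈ TT.map f := by
    intro k hk'
    obtain ⟨F, hF⟩ := FS_finite k
    refine mem_of_proj F k hF ?_
    intro n
    have h9 : (T n).map f = ⁅R n, R n⁆ := by
      show (⁅En n, En n⁆).map f = _
      rw [Subgroup.map_commutator, Subgroup.map_comap_eq_self_of_surjective hf]
    have h10 : inj n (proj n k) ∈ (T n).map f := by
      rw [h9]
      have h11 : R n = (⊤ : Subgroup (H n)).map (inj n) := MonoidHom.range_eq_map _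
      rw [h11, ← Subgroup.map_commutator]
      exact ⟨_, hk' n, rfl⟩
    exact Subgroup.map_mono (le_iSup T n) h10
  have hlcs1 : ⁅(⊤ : Subgroup E), ⊤⁆ ≤ TT ⊔ f.ker := by
    rw [Subgroup.commutator_le]
    intro a _ b _
    rw [← Subgroup.comap_map_eq]
    show f ⁅a, b⁆ ∈ TT.map f
    apply hcomm
    intro n
    rw [map_commutatorElement, map_commutatorElement]
    exact Subgroup.commutator_mem_commutator (Subgroup.mem_top _) (Subgroup.mem_top _)
  have hlcs2 : (⊤ : Subgroup E).lowerCentralSeries 2 ≤ TT := by
    have h12 : (⊤ : Subgroup E).lowerCentralSeries 2 = ⁅⁅(⊤ : Subgroup E), ⊤⁆, ⊤⁆ := rfl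
    rw [h12, Subgroup.commutator_le]
    intro a ha b _
    obtain ⟨u, hu, v, hv, rfl⟩ := Subgroup.mem_sup_of_normal_left.1 (hlcs1 ha)
    have hvc := Subgroup.mem_center_iff.1 (hk hv)
    have h13 : ⁅u * v, b⁆ = u * (b * u⁻¹ * b⁻¹) := by
      rw [commutatorElement_def]
      calc u * v * b * (u * v)⁻¹ * b⁻¹ = u * (v * b) * (v⁻¹ * u⁻¹) * b⁻¹ := by group
        _ = u * (b * v) * (v⁻¹ * u⁻¹) * b⁻¹ := by rw [hvc b]
        _ = u * (b * u⁻¹ * b⁻¹) := by group
    rw [h13]
    exact mul_mem hu (hTT.conj_mem _ (inv_mem hu) b)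
  exact hTTk g (hlcs2 hg) h1

end Pool.Agent.MP_c9c98b_al
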